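import Pool.Agent.H46.SB.Bern

/-!
# Sign checks, version with four phases

For every `ρ ∈ [0, 1]` the polynomial `z ↦ evM M z ρ` is positive on `[0, z1)`, nonincreasing on
`[z1, z2]`, nonpositive on `[z2, z3]` (by pieces) and nonpositive from `z3` on (by the coefficients in
`z - z3`).
-/

namespace H46.SB

/-- the data of one piece: breakpoints in units `1 / Z`; `lo` ends with `z1`, `mid` with `z2`, `hi` with
`Z z3` -/
structure Pc where
  lo : List ℤ
  z1 : ℤ
  mid : List ℤ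
  z2 : ℤ
  hi : List ℤ
  z3 : ℤ

def sgnP (P : List (List ℤ)) (Z : ℤ) (c : Pc) : Bool :=
  chainB (fun x y => posM (homM [x, y] [Z, Z] P)) 0 c.lo && decide (lastB 0 c.lo = c.z1) &&
  chainB (fun x y => nnM (homM [x, y] [Z, Z] (smM (-1) (derM P)))) c.z1 c.mid &&
  decide (lastB c.z1 c.mid = c.z2) &&
  chainB (fun x y => nnM (homM [x, y] [Z, Z] (smM (-1) P))) c.z2 c.hi &&
  decide (lastB c.z2 c.hi = Z * c.z3) &&
  nnM (homM [c.z3, 1] [1] (smM (-1) P)) && decide (0 < c.z1) && decide (c.z1 ≤ c.z2)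

theorem sgnP_spec {P : List (List ℤ)} {Z : ℤ} {c : Pc} (hZ : 0 < Z) (h : sgnP P Z c = true) {v : ℝ}
    (hv : 0 ≤ v) : OneSign (fun z => evM P z v) := by
  simp only [sgnP, Bool.and_eq_true, decide_eq_true_eq] at h
  obtain ⟨⟨⟨⟨⟨⟨⟨⟨hc1, hl1⟩, hc2⟩, hl2⟩, hc3⟩, hl3⟩, ht⟩, hz1⟩, hz12⟩ := h
  have hZ' : (0 : ℝ) < Z := by exact_mod_cast hZ
  have hlow : ∀ z : ℝ, 0 ≤ z → (Z : ℝ) * z < c.z1 → 0 < evM P z v := by
    intro z hz hz'
    obtain ⟨a, b, hab, ha, hb⟩ := chainB_spec hc1 (t := Z * z) (by simpa using mul_nonneg hZ'.le hz)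
      (by rw [hl1]; exact hz')
    obtain ⟨w, hw, hw1, hw2⟩ := mobius hZ ha hb
    have h3 := evM_hom [a, b] [Z, Z] P w z v hw1
    have h4 : 0 < evM (homM [a, b] [Z, Z] P) w v * evL [Z, Z] w := mul_pos (posM_spec hab hw hv) hw2
    rw [h3] at h4
    exact (pos_iff_pos_of_mul_pos h4).1 (pow_pos hw2 _)
  have hder : ∀ z : ℝ, (c.z1 : ℝ) ≤ Z * z → (Z : ℝ) * z < c.z2 → evM (derM P) z v ≤ 0 := by
    intro z hz hz'
    obtain ⟨a, b, hab, ha, hb⟩ := chainB_spec hc2 (t := Z * z) hz (by rw [hl2]; exact hz')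
    obtain ⟨w, hw, hw1, hw2⟩ := mobius hZ ha hb
    have h3 := evM_hom [a, b] [Z, Z] (smM (-1) (derM P)) w z v hw1
    have h4 : 0 ≤ evM (homM [a, b] [Z, Z] (smM (-1) (derM P))) w v * evL [Z, Z] w :=
      mul_nonneg (nnM_spec hab hw hv) hw2.le
    rw [h3, evM_sm] at h4
    have h5 : 0 ≤ ((-1 : ℤ) : ℝ) * evM (derM P) z v := by
      by_contra hcon
      push Not at hcon
      exact absurd h4 (not_le.2 (mul_neg_of_pos_of_neg (pow_pos hw2 _) hcon))
    push_cast at h5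
    linarith
  have hhi : ∀ z : ℝ, (c.z2 : ℝ) ≤ Z * z → (Z : ℝ) * z < ((Z * c.z3 : ℤ) : ℝ) → evM P z v ≤ 0 := by
    intro z hz hz'
    obtain ⟨a, b, hab, ha, hb⟩ := chainB_spec hc3 (t := Z * z) hz (by rw [hl3]; exact hz')
    obtain ⟨w, hw, hw1, hw2⟩ := mobius hZ ha hb
    have h3 := evM_hom [a, b] [Z, Z] (smM (-1) P) w z v hw1
    have h4 : 0 ≤ evM (homM [a, b] [Z, Z] (smM (-1) P)) w v * evL [Z, Z] w :=
      mul_nonneg (nnM_spec hab hw hv) hw2.le
    rw [h3, evM_sm] at h4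
    have h5 : 0 ≤ ((-1 : ℤ) : ℝ) * evM P z v := by
      by_contra hcon
      push Not at hcon
      exact absurd h4 (not_le.2 (mul_neg_of_pos_of_neg (pow_pos hw2 _) hcon))
    push_cast at h5
    linarith
  have htail : ∀ z : ℝ, (c.z3 : ℝ) ≤ z → evM P z v ≤ 0 := by
    intro z hz
    have hw : 0 ≤ z - c.z3 := by linarith
    have hw1 : evL [c.z3, 1] (z - c.z3) = z * evL [1] (z - c.z3) := by simp [evL]
    have h3 := evM_hom [c.z3, 1] [1] (smM (-1) P) (z - c.z3) z v hw1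
    have h4 := nnM_spec ht hw hv
    have h5 : evL [1] (z - c.z3) = 1 := by simp [evL]
    rw [h5, one_pow, one_mul, mul_one, evM_sm] at h3
    rw [h3] at h4
    push_cast at h4
    linarith
  have hanti : AntitoneOn (fun z => evM P z v) (Set.Icc ((c.z1 : ℝ) / Z) (c.z2 / Z)) := by
    apply antitoneOn_of_deriv_nonpos (convex_Icc _ _)
    · exact fun z _ => (evM_der P z v).continuousAt.continuousWithinAt
    · exact fun z _ => (evM_der P z v).differentiableAt.differentiableWithinAt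
    · intro z hz
      rw [interior_Icc] at hz
      rw [(evM_der P z v).deriv]
      apply hder z
      · have := (div_lt_iff₀ hZ').1 hz.1
        linarith
      · have := (lt_div_iff₀ hZ').1 hz.2
        linarith
  intro x y hx hxy hgx
  have hx1 : (c.z1 : ℝ) ≤ Z * x := by
    by_contra hcon
    push Not at hcon
    exact absurd (hlow x hx.le hcon) (not_lt.2 hgx)
  have hx2 : (c.z1 : ℝ) / Z ≤ x := by
    rw [div_le_iff₀ hZ']
    linarith
  rcases le_or_gt (c.z2 : ℝ) (Z * y) with h3 | h3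
  · rcases lt_or_ge ((Z : ℝ) * y) ((Z * c.z3 : ℤ) : ℝ) with h4 | h4
    · exact hhi y h3 h4
    · apply htail y
      push_cast at h4
      exact le_of_mul_le_mul_left h4 hZ'
  · have h5 : y ≤ (c.z2 : ℝ) / Z := by
      rw [le_div_iff₀ hZ']
      linarith
    exact le_trans (hanti ⟨hx2, hxy.trans h5⟩ ⟨hx2.trans hxy, h5⟩ hxy) hgx

/-- transfer along a substitution of `ρ` -/
theorem oneSign_transfer {M : List (List ℤ)} {p q : List ℤ} {N : ℕ} (hM : ∀ L ∈ M, L.length = N)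
    {v ρ : ℝ} (hv1 : evL p v = ρ * evL q v) (hv2 : 0 < evL q v)
    (h : OneSign (fun z => evM (M.map (hom p q)) z v)) : OneSign (fun z => evM M z ρ) := by
  have hinner : ∀ z, evM (M.map (hom p q)) z v * evL q v = (evL q v) ^ N * evM M z ρ :=
    fun z => evM_inner _ _ N M hM z v ρ hv1
  intro x y hx hxy hfx
  have hx1 : evM (M.map (hom p q)) x v ≤ 0 := by
    by_contra hcon
    push Not at hcon
    have h4 : 0 < evM (M.map (hom p q)) x v * evL q v := mul_pos hcon hv2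
    rw [hinner x] at h4
    exact absurd ((pos_iff_pos_of_mul_pos h4).1 (pow_pos hv2 N)) (not_lt.2 hfx)
  have hy1 : evM (M.map (hom p q)) y v ≤ 0 := h x y hx hxy hx1
  by_contra hcon
  push Not at hcon
  have h4 : 0 < (evL q v) ^ N * evM M y ρ := mul_pos (pow_pos hv2 N) hcon
  rw [← hinner y] at h4
  have h5 : evM (M.map (hom p q)) y v * evL q v ≤ 0 := mul_nonpos_of_nonpos_of_nonneg hy1 hv2.le
  linarith

/-- the check: pieces `(rb, c)` from `ra` to `R`, and the last entry `c1` is for `ρ = 1` -/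
def sgnChk3 (M : List (List ℤ)) (R Z : ℤ) (c1 : Pc) : ℤ → List (ℤ × Pc) → Bool
  | ra, [] => decide (R ≤ ra) && sgnP (M.map (hom [R] [R])) Z c1
  | ra, (rb, c) :: l => sgnP (M.map (hom [ra, rb] [R, R])) Z c && sgnChk3 M R Z c1 rb l

theorem sgnChk3_spec {M : List (List ℤ)} {R Z : ℤ} {N : ℕ} {c1 : Pc}
    (hM : ∀ L ∈ M, L.length = N) (hR : 0 < R) (hZ : 0 < Z) (l : List (ℤ × Pc))
    (ra : ℤ) (h : sgnChk3 M R Z c1 ra l = true) {ρ : ℝ} (h1 : (ra : ℝ) ≤ R * ρ) (h2 : ρ ≤ 1) :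
    OneSign (fun z => evM M z ρ) := by
  have hR' : (0 : ℝ) < R := by exact_mod_cast hR
  induction l generalizing ra with
  | nil =>
    simp only [sgnChk3, Bool.and_eq_true, decide_eq_true_eq] at h
    have h3 : (R : ℝ) ≤ ra := by exact_mod_cast h.1
    have h4 : ρ = 1 := by
      apply le_antisymm h2
      by_contra hcon
      push Not at hcon
      nlinarith
    apply oneSign_transfer hM (p := [R]) (q := [R]) (v := 0) (by simp [evL, h4]) (by simp [evL, hR'])
    exact sgnP_spec hZ h.2 le_rfl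
  | cons a l ih =>
    obtain ⟨rb, c⟩ := a
    simp only [sgnChk3, Bool.and_eq_true] at h
    rcases lt_or_ge ((R : ℝ) * ρ) rb with h3 | h3
    · obtain ⟨v, hv, hv1, hv2⟩ := mobius hR h1 h3
      exact oneSign_transfer hM hv1 hv2 (sgnP_spec hZ h.1 hv)
    · exact ih rb h.2 h3

end H46.SB
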