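import Pool.Agent.H49.SG.Defs

/-!
# The certificate in dimension 4: coefficients

`d = 4`, `n = 2`, `K = 7`, `a = 13/25`, `b = 22/25`; `h4 a b = (integer) / 10000000`, zero for `a + b > 7`.
The bound is `hat 7 h4 0 0 * π^(4/2) / (a b) = 31.589...`.
-/

namespace H46.SB

/-- the coefficients times `10000000` -/
def t4 : List (List ℤ) :=
  [[10000000, -698980, 21550609, -26356038, 15092981, -2619932, 88028, -1112],
   [-8467366, 45860114, -117402240, 100489618, -32872039, 3484372, -74885],
   [25801821, -106110429, 171616413, -80526197, 15517173, -826135],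
   [-17265554, 90566179, -56616288, 13758102, -1398262],
   [12605059, -21137846, 3135079, -438039],
   [-3888089, 1457498, 113932],
   [458219, -54659],
   [-18086]]

/-- the coefficients of the certificate in dimension 4 -/
def h4 (a b : ℕ) : ℚ := (((t4.getD a []).getD b 0 : ℤ) : ℚ) / 10000000

/-- the first scaling parameter in dimension 4 -/
def a4 : ℚ := 13 / 25

/-- the second scaling parameter in dimension 4 -/
def b4 : ℚ := 22 / 25

end H46.SB
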