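import Mathlib

/-!
# Triangular tables
-/

namespace H46.SB

theorem getD_zero {t : List (List ℤ)} {K : ℕ} (hl : t.length ≤ K + 1)
    (hr : ∀ a < K + 1, (t.getD a []).length ≤ K + 1 - a) (a b : ℕ) (h : K < a + b) :
    (t.getD a []).getD b 0 = 0 := by
  rcases lt_or_ge a (K + 1) with ha | ha
  · exact List.getD_eq_default _ _ ((hr a ha).trans (by omega))
  · have h1 : t.getD a [] = [] := List.getD_eq_default _ _ (hl.trans ha)
    rw [h1]
    rfl

end H46.SB
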