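import Pool.Agent.H46.SB.CondOf
import Pool.Agent.H46.SB.Cert4
import Pool.Agent.H46.SB.Bern3
import Pool.Agent.H46.SB.TabZero

/-!
# The certificate in dimension 4: the polynomial facts

`sgn4`: for every `ρ ∈ [0, 1]` the polynomial `∑ ck h4 k ρ z ^ k` has a single sign change.
-/

namespace H46.SB

/-- `10000000` times the coefficients: outer index power of `z`, inner index power of `ρ` -/
def M4 : List (List ℤ) :=
  [[10000000, 0, 0, 0, 0, 0, 0, 0],
   [-698980, -7768386, 0, 0, 0, 0, 0, 0],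
   [21550609, 2758896, 1492316, 0, 0, 0, 0, 0],
   [-26356038, -38334126, 49625937, -2201327, 0, 0, 0, 0],
   [15092981, 40117694, -39294555, -11569717, 8258656, 0, 0, 0],
   [-2619932, -19772379, 24762639, 13929389, -31095365, 10907559, 0, 0],
   [88028, 2956204, -584267, -15227430, 21440511, -8713354, 498527, 0],
   [-1112, -67101, -400177, 1648058, -1647561, 199904, 307259, -57356]]

theorem h4_zero : ∀ a b, 7 < a + b → h4 a b = 0 := by
  intro a b hab
  have h := getD_zero (t := t4) (K := 7) (by decide) (by decide) a b hab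
  unfold h4
  rw [h]
  simp

theorem chk4 : sgnChk3 M4 256 256 ⟨[896], 896, [1792], 1792, [2560], 10⟩ 0
  [(32, ⟨[1024], 1024, [1216], 1216, [2656, 4096], 16⟩),
   (48, ⟨[512, 1024], 1024, [1280], 1280, [2176, 2624, 3072], 12⟩),
   (64, ⟨[512, 1024], 1024, [1344], 1344, [2208, 2640, 3072], 12⟩),
   (128, ⟨[544, 1088], 1088, [1408], 1408, [2560], 10⟩),
   (192, ⟨[512, 1024], 1024, [1280], 1280, [3200, 4160, 5120], 20⟩),
   (208, ⟨[960], 960, [1216], 1216, [3168, 4144, 4632, 5120], 20⟩),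
   (224, ⟨[960], 960, [1216], 1216, [4096], 16⟩),
   (256, ⟨[960], 960, [1792], 1792, [2560], 10⟩)] = true := by
  decide +kernel

theorem ev4 (ρ z : ℝ) :
    ∑ k ∈ Finset.range (7 + 1), ck h4 k ρ * z ^ k = evM M4 z ρ / 10000000 := by
  simp only [ck, h4, t4, M4, evM, evL, Finset.sum_range_succ, Finset.sum_range_zero, List.getD_cons_zero,
    List.getD_cons_succ, Nat.sub_self, Nat.sub_zero]
  norm_num
  ring

/-- single sign change -/
theorem sgn4 (ρ : ℝ) (h0 : 0 ≤ ρ) (h1 : ρ ≤ 1) (x y : ℝ) (hx : 0 < x) (hxy : x ≤ y)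
    (hle : ∑ k ∈ Finset.range (7 + 1), ck h4 k ρ * x ^ k ≤ 0) :
    ∑ k ∈ Finset.range (7 + 1), ck h4 k ρ * y ^ k ≤ 0 := by
  have hM : ∀ L ∈ M4, L.length = 8 := by simp [M4]
  have h := sgnChk3_spec hM (by norm_num) (by norm_num) _ 0 chk4 (ρ := ρ)
    (by push_cast; linarith) h1
  rw [ev4] at hle ⊢
  have h2 : evM M4 x ρ ≤ 0 := by linarith
  have h3 : evM M4 y ρ ≤ 0 := h x y hx hxy h2
  linarith

end H46.SB
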