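import Mathlib

/-!
# Sign checks for polynomials in two variables with integer coefficients

`evL l x = ∑ l_i x^i`, `evM M z v = ∑ z^k evL M_k v`.  `hom p q l` is `∑ l_i p^i q^(len - 1 - i)`.
`sgnChk` checks that for every `ρ ∈ [0, 1]` the polynomial `z ↦ evM M z ρ` is positive, then
nonincreasing, then nonpositive.
-/

namespace H46.SB

def evL : List ℤ → ℝ → ℝ
  | [], _ => 0
  | c :: l, x => (c : ℝ) + x * evL l x

def addL : List ℤ → List ℤ → List ℤ
  | [], m => m
  | a :: l, [] => a :: l
  | a :: l, b :: m => (a + b) :: addL l m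

def smL (c : ℤ) (l : List ℤ) : List ℤ := l.map (c * ·)

def mulL : List ℤ → List ℤ → List ℤ
  | [], _ => []
  | a :: l, m => addL (smL a m) (0 :: mulL l m)

def powL (l : List ℤ) : ℕ → List ℤ
  | 0 => [1]
  | n + 1 => mulL l (powL l n)

def hom (p q : List ℤ) : List ℤ → List ℤ
  | [] => []
  | x :: xs => addL (smL x (powL q xs.length)) (mulL p (hom p q xs))

theorem evL_add (l m : List ℤ) (x : ℝ) : evL (addL l m) x = evL l x + evL m x := by
  induction l generalizing m with
  | nil => simp [addL, evL]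
  | cons a l ih =>
    cases m with
    | nil => simp [addL, evL]
    | cons b m => simp only [addL, evL, ih]; push_cast; ring

theorem evL_sm (c : ℤ) (l : List ℤ) (x : ℝ) : evL (smL c l) x = c * evL l x := by
  induction l with
  | nil => simp [smL, evL]
  | cons a l ih =>
    have h : smL c (a :: l) = (c * a) :: smL c l := rfl
    rw [h, evL, evL, ih]; push_cast; ring

theorem evL_mul (l m : List ℤ) (x : ℝ) : evL (mulL l m) x = evL l x * evL m x := by
  induction l with
  | nil => simp [mulL, evL]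
  | cons a l ih =>
    simp only [mulL, evL_add, evL_sm, evL, ih]
    push_cast
    ring

theorem evL_pow (l : List ℤ) (n : ℕ) (x : ℝ) : evL (powL l n) x = (evL l x) ^ n := by
  induction n with
  | zero => simp [powL, evL]
  | succ n ih => rw [powL, evL_mul, ih, pow_succ]; ring

theorem evL_hom (p q l : List ℤ) (v x : ℝ) (h : evL p v = x * evL q v) :
    evL (hom p q l) v * evL q v = (evL q v) ^ l.length * evL l x := by
  induction l with
  | nil => simp [hom, evL]
  | cons a l ih =>
    simp only [hom, evL_add, evL_sm, evL_mul, evL_pow, evL, List.length_cons, pow_succ]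
    rw [add_mul, mul_assoc (evL p v), ih, h]
    ring

/-! ### two variables -/

def evM : List (List ℤ) → ℝ → ℝ → ℝ
  | [], _, _ => 0
  | L :: M, z, v => evL L v + z * evM M z v

def addM : List (List ℤ) → List (List ℤ) → List (List ℤ)
  | [], m => m
  | a :: l, [] => a :: l
  | a :: l, b :: m => addL a b :: addM l m

def smM (c : ℤ) (M : List (List ℤ)) : List (List ℤ) := M.map (smL c)

def kron (l : List ℤ) (L : List ℤ) : List (List ℤ) := l.map (fun c => smL c L)

def mulM : List ℤ → List (List ℤ) → List (List ℤ)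
  | [], _ => []
  | a :: l, M => addM (smM a M) ([] :: mulM l M)

def homM (p q : List ℤ) : List (List ℤ) → List (List ℤ)
  | [] => []
  | X :: XS => addM (kron (powL q XS.length) X) (mulM p (homM p q XS))

def derM : List (List ℤ) → List (List ℤ)
  | [] => []
  | _ :: M => addM M ([] :: derM M)

theorem evM_add (l m : List (List ℤ)) (z v : ℝ) : evM (addM l m) z v = evM l z v + evM m z v := by
  induction l generalizing m with
  | nil => simp [addM, evM]
  | cons a l ih =>
    cases m with
    | nil => simp [addM, evM]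
    | cons b m => simp only [addM, evM, ih, evL_add]; ring

theorem evM_sm (c : ℤ) (M : List (List ℤ)) (z v : ℝ) : evM (smM c M) z v = c * evM M z v := by
  induction M with
  | nil => simp [smM, evM]
  | cons a l ih =>
    have h : smM c (a :: l) = smL c a :: smM c l := rfl
    rw [h, evM, evM, ih, evL_sm]; ring

theorem evM_kron (l L : List ℤ) (z v : ℝ) : evM (kron l L) z v = evL l z * evL L v := by
  induction l with
  | nil => simp [kron, evM, evL]
  | cons a l ih =>
    have h : kron (a :: l) L = smL a L :: kron l L := rfl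
    rw [h, evM, evL, ih, evL_sm]; ring

theorem evM_mul (l : List ℤ) (M : List (List ℤ)) (z v : ℝ) :
    evM (mulM l M) z v = evL l z * evM M z v := by
  induction l with
  | nil => simp [mulM, evM, evL]
  | cons a l ih =>
    simp only [mulM, evM_add, evM_sm, evM, ih, evL]
    ring

theorem evM_hom (p q : List ℤ) (M : List (List ℤ)) (w z v : ℝ) (h : evL p w = z * evL q w) :
    evM (homM p q M) w v * evL q w = (evL q w) ^ M.length * evM M z v := by
  induction M with
  | nil => simp [homM, evM]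
  | cons a l ih =>
    simp only [homM, evM_add, evM_kron, evM_mul, evL_pow, evM, List.length_cons, pow_succ]
    rw [add_mul, mul_assoc (evL p w), ih, h]
    ring

theorem evM_inner (p q : List ℤ) (N : ℕ) (M : List (List ℤ)) (hM : ∀ L ∈ M, L.length = N) (z v x : ℝ)
    (h : evL p v = x * evL q v) :
    evM (M.map (hom p q)) z v * evL q v = (evL q v) ^ N * evM M z x := by
  induction M with
  | nil => simp [evM]
  | cons a l ih =>
    have h1 := evL_hom p q a v x h
    rw [hM a (List.mem_cons_self ..)] at h1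
    have h2 := ih fun L hL => hM L (List.mem_cons_of_mem _ hL)
    simp only [List.map_cons, evM]
    rw [add_mul, mul_assoc z, h2, h1]
    ring

theorem evM_der (M : List (List ℤ)) (z v : ℝ) :
    HasDerivAt (fun z => evM M z v) (evM (derM M) z v) z := by
  induction M with
  | nil => simpa [evM, derM] using hasDerivAt_const z (0 : ℝ)
  | cons a l ih =>
    simp only [evM, derM, evM_add, evL]
    have h1 := ((hasDerivAt_id z).mul ih).const_add (evL a v)
    simp only [id, one_mul] at h1
    have h2 : evM l z v + (0 + z * evM (derM l) z v) = evM l z v + z * evM (derM l) z v := by ring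
    rw [h2]
    exact h1

def nnL (l : List ℤ) : Bool := l.all (fun c => decide (0 ≤ c))

def nnM (M : List (List ℤ)) : Bool := M.all nnL

def posM : List (List ℤ) → Bool
  | (a :: l) :: M => decide (0 < a) && nnL l && nnM M
  | _ => false

theorem nnL_spec {l : List ℤ} (h : nnL l = true) {v : ℝ} (hv : 0 ≤ v) : 0 ≤ evL l v := by
  induction l with
  | nil => simp [evL]
  | cons a l ih =>
    simp only [nnL, List.all_cons, Bool.and_eq_true, decide_eq_true_eq] at h
    have h1 : (0 : ℝ) ≤ a := by exact_mod_cast h.1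
    have h2 : 0 ≤ evL l v := ih h.2
    simp only [evL]
    positivity

theorem nnM_spec {M : List (List ℤ)} (h : nnM M = true) {z v : ℝ} (hz : 0 ≤ z) (hv : 0 ≤ v) :
    0 ≤ evM M z v := by
  induction M with
  | nil => simp [evM]
  | cons a l ih =>
    simp only [nnM, List.all_cons, Bool.and_eq_true] at h
    have h1 : 0 ≤ evL a v := nnL_spec h.1 hv
    have h2 : 0 ≤ evM l z v := ih h.2
    simp only [evM]
    positivity

theorem posM_spec {M : List (List ℤ)} (h : posM M = true) {z v : ℝ} (hz : 0 ≤ z) (hv : 0 ≤ v) :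
    0 < evM M z v := by
  match M, h with
  | (a :: l) :: M, h =>
    simp only [posM, Bool.and_eq_true, decide_eq_true_eq] at h
    obtain ⟨⟨h1, h2⟩, h3⟩ := h
    have h4 : (0 : ℝ) < a := by exact_mod_cast h1
    have h5 : 0 ≤ evL l v := nnL_spec h2 hv
    have h6 : 0 ≤ evM M z v := nnM_spec h3 hz hv
    simp only [evM, evL]
    positivity

/-- consecutive elements satisfy `f` -/
def chainB (f : ℤ → ℤ → Bool) : ℤ → List ℤ → Bool
  | _, [] => true
  | x, y :: l => f x y && chainB f y l

/-- the last element -/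
def lastB : ℤ → List ℤ → ℤ
  | x, [] => x
  | _, y :: l => lastB y l

theorem chainB_spec {f : ℤ → ℤ → Bool} {x : ℤ} {l : List ℤ} (h : chainB f x l = true) {t : ℝ}
    (h1 : (x : ℝ) ≤ t) (h2 : t < (lastB x l : ℤ)) : ∃ a b : ℤ, f a b = true ∧ (a : ℝ) ≤ t ∧ t < b := by
  induction l generalizing x with
  | nil => exact absurd h2 (not_lt.2 h1)
  | cons y l ih =>
    simp only [chainB, Bool.and_eq_true] at h
    rcases lt_or_ge t y with h3 | h3
    · exact ⟨x, y, h.1, h1, h3⟩
    · exact ih h.2 h3 h2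

/-- substitution of an interval -/
theorem mobius {a b c : ℤ} {x : ℝ} (hc : 0 < c) (h1 : (a : ℝ) ≤ c * x) (h2 : (c : ℝ) * x < b) :
    ∃ v : ℝ, 0 ≤ v ∧ evL [a, b] v = x * evL [c, c] v ∧ 0 < evL [c, c] v := by
  have hc' : (0 : ℝ) < c := by exact_mod_cast hc
  have h3 : 0 < (b : ℝ) - c * x := by linarith
  have h4 : 0 ≤ (c : ℝ) * x - a := by linarith
  refine ⟨(c * x - a) / (b - c * x), div_nonneg h4 h3.le, ?_, ?_⟩
  · simp only [evL, mul_zero, add_zero]
    field_simp
    ring
  · simp only [evL, mul_zero, add_zero]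
    have : 0 ≤ ((c : ℝ) * x - a) / (b - c * x) := div_nonneg h4 h3.le
    positivity

/-- one `ρ` interval: positive on `[0, z1)`, nonincreasing on `[z1, z2]`, nonpositive from `z2` on, where
`lo` ends with `Z z1`, `mid` is the list of the breakpoints after `Z z1` and ends with `Z z2` -/
def sgnPiece (M : List (List ℤ)) (R Z ra rb : ℤ) (lo : List ℤ) (z1 : ℤ) (mid : List ℤ) (z2 : ℤ) : Bool :=
  let P := M.map (hom [ra, rb] [R, R])
  chainB (fun x y => posM (homM [x, y] [Z, Z] P)) 0 lo && decide (lastB 0 lo = z1) &&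
  chainB (fun x y => nnM (homM [x, y] [Z, Z] (smM (-1) (derM P)))) z1 mid &&
  decide (lastB z1 mid = Z * z2) && nnM (homM [z2, 1] [1] (smM (-1) P)) && decide (0 < z1) &&
  decide (z1 ≤ Z * z2)

/-- a single sign change -/
def OneSign (f : ℝ → ℝ) : Prop := ∀ x y, 0 < x → x ≤ y → f x ≤ 0 → f y ≤ 0

theorem sgnPiece_spec {M : List (List ℤ)} {R Z ra rb z1 z2 : ℤ} {lo mid : List ℤ} {N : ℕ}
    (hM : ∀ L ∈ M, L.length = N) (hR : 0 < R) (hZ : 0 < Z)
    (h : sgnPiece M R Z ra rb lo z1 mid z2 = true) {ρ : ℝ} (h1 : (ra : ℝ) ≤ R * ρ) (h2 : (R : ℝ) * ρ < rb) :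
    OneSign (fun z => evM M z ρ) := by
  simp only [sgnPiece, Bool.and_eq_true, decide_eq_true_eq] at h
  obtain ⟨⟨⟨⟨⟨⟨hc1, hl1⟩, hc2⟩, hl2⟩, ht⟩, hz1⟩, hz12⟩ := h
  obtain ⟨v, hv, hv1, hv2⟩ := mobius hR h1 h2
  set P := M.map (hom [ra, rb] [R, R]) with hP
  have hZ' : (0 : ℝ) < Z := by exact_mod_cast hZ
  have hinner : ∀ z, evM P z v * evL [R, R] v = (evL [R, R] v) ^ N * evM M z ρ :=
    fun z => evM_inner _ _ N M hM z v ρ hv1
  have hpos : ∀ z, 0 < evM P z v → 0 < evM M z ρ := by
    intro z hz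
    have h3 := hinner z
    have h4 : 0 < evM P z v * evL [R, R] v := mul_pos hz hv2
    rw [h3] at h4
    exact (pos_iff_pos_of_mul_pos h4).1 (pow_pos hv2 N)
  have hle : ∀ z, evM P z v ≤ 0 → evM M z ρ ≤ 0 := by
    intro z hz
    have h3 := hinner z
    by_contra hcon
    push Not at hcon
    have h4 : 0 < (evL [R, R] v) ^ N * evM M z ρ := mul_pos (pow_pos hv2 N) hcon
    rw [← h3] at h4
    have h5 : evM P z v * evL [R, R] v ≤ 0 := mul_nonpos_of_nonpos_of_nonneg hz hv2.le
    linarith
  have hle' : ∀ z, evM M z ρ ≤ 0 → evM P z v ≤ 0 := by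
    intro z hz
    by_contra hcon
    push Not at hcon
    exact absurd (hpos z hcon) (not_lt.2 hz)
  -- positivity on `[0, z1)`
  have hlow : ∀ z : ℝ, 0 ≤ z → (Z : ℝ) * z < z1 → 0 < evM P z v := by
    intro z hz hz'
    obtain ⟨a, b, hab, ha, hb⟩ := chainB_spec hc1 (t := Z * z) (by simpa using mul_nonneg hZ'.le hz)
      (by rw [hl1]; exact hz')
    obtain ⟨w, hw, hw1, hw2⟩ := mobius hZ ha hb
    have h3 := evM_hom [a, b] [Z, Z] P w z v hw1
    have h4 : 0 < evM (homM [a, b] [Z, Z] P) w v * evL [Z, Z] w := mul_pos (posM_spec hab hw hv) hw2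
    rw [h3] at h4
    exact (pos_iff_pos_of_mul_pos h4).1 (pow_pos hw2 _)
  -- derivative
  have hder : ∀ z, (z1 : ℝ) ≤ Z * z → Z * z < ((Z * z2 : ℤ) : ℝ) → evM (derM P) z v ≤ 0 := by
    intro z hz hz'
    obtain ⟨a, b, hab, ha, hb⟩ := chainB_spec hc2 (t := Z * z) hz (by rw [hl2]; exact hz')
    obtain ⟨w, hw, hw1, hw2⟩ := mobius hZ ha hb
    have h3 := evM_hom [a, b] [Z, Z] (smM (-1) (derM P)) w z v hw1
    have h4 : 0 ≤ evM (homM [a, b] [Z, Z] (smM (-1) (derM P))) w v * evL [Z, Z] w :=
      mul_nonneg (nnM_spec hab hw hv) hw2.le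
    rw [h3, evM_sm] at h4
    have h5 : 0 ≤ ((-1 : ℤ) : ℝ) * evM (derM P) z v := by
      by_contra hcon
      push Not at hcon
      exact absurd h4 (not_le.2 (mul_neg_of_pos_of_neg (pow_pos hw2 _) hcon))
    push_cast at h5
    linarith
  -- tail
  have htail : ∀ z, (z2 : ℝ) ≤ z → evM P z v ≤ 0 := by
    intro z hz
    have hw : 0 ≤ z - z2 := by linarith
    have hw1 : evL [z2, 1] (z - z2) = z * evL [1] (z - z2) := by simp [evL]
    have h3 := evM_hom [z2, 1] [1] (smM (-1) P) (z - z2) z v hw1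
    have h4 := nnM_spec ht hw hv
    have h5 : evL [1] (z - z2) = 1 := by simp [evL]
    rw [h5, one_pow, one_mul, mul_one, evM_sm] at h3
    rw [h3] at h4
    push_cast at h4
    linarith
  have hanti : AntitoneOn (fun z => evM P z v) (Set.Icc ((z1 : ℝ) / Z) z2) := by
    apply antitoneOn_of_deriv_nonpos (convex_Icc _ _)
    · exact fun z _ => (evM_der P z v).continuousAt.continuousWithinAt
    · exact fun z _ => (evM_der P z v).differentiableAt.differentiableWithinAt
    · intro z hz
      rw [interior_Icc] at hz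
      rw [(evM_der P z v).deriv]
      apply hder z
      · have := (div_lt_iff₀ hZ').1 hz.1
        linarith
      · push_cast
        exact mul_lt_mul_of_pos_left hz.2 hZ'
  intro x y hx hxy hfx
  have hgx := hle' x hfx
  apply hle
  have hx1 : (z1 : ℝ) ≤ Z * x := by
    by_contra hcon
    push Not at hcon
    exact absurd (hlow x hx.le hcon) (not_lt.2 hgx)
  have hx2 : (z1 : ℝ) / Z ≤ x := by
    rw [div_le_iff₀ hZ']
    linarith
  rcases le_or_gt (z2 : ℝ) y with h3 | h3
  · exact htail y h3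
  · have h4 := hanti ⟨hx2, hxy.trans h3.le⟩ ⟨hx2.trans hxy, h3.le⟩ hxy
    exact le_trans h4 hgx

/-- the data of one piece: `(rb, lo, z1, mid)` -/
def sgnChk (M : List (List ℤ)) (R Z z2 : ℤ) : ℤ → List (ℤ × List ℤ × ℤ × List ℤ) → Bool
  | ra, [] => decide (R < ra)
  | ra, (rb, lo, z1, mid) :: l => sgnPiece M R Z ra rb lo z1 mid z2 && sgnChk M R Z z2 rb l

theorem sgnChk_spec {M : List (List ℤ)} {R Z z2 : ℤ} {N : ℕ}
    (hM : ∀ L ∈ M, L.length = N) (hR : 0 < R) (hZ : 0 < Z) (l : List (ℤ × List ℤ × ℤ × List ℤ))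
    (ra : ℤ) (h : sgnChk M R Z z2 ra l = true) {ρ : ℝ} (h1 : (ra : ℝ) ≤ R * ρ) (h2 : ρ ≤ 1) :
    OneSign (fun z => evM M z ρ) := by
  induction l generalizing ra with
  | nil =>
    simp only [sgnChk, decide_eq_true_eq] at h
    have h3 : (R : ℝ) < ra := by exact_mod_cast h
    have h4 : (0 : ℝ) < R := by exact_mod_cast hR
    nlinarith
  | cons a l ih =>
    obtain ⟨rb, lo, z1, mid⟩ := a
    simp only [sgnChk, Bool.and_eq_true] at h
    rcases lt_or_ge ((R : ℝ) * ρ) rb with h3 | h3
    · exact sgnPiece_spec hM hR hZ h.1 h1 h3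
    · exact ih rb h.2 h3

end H46.SB
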