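import Pool.Agent.H49.SG.Defs

/-!
# The certificate in dimension 5: coefficients

`d = 5`, `n = 3`, `K = 5`, `a = 21/50`, `b = 5/8`; `h5 a b = 10^(-6) * (integer)`, zero for `a + b > 5`.
The bound is `hat 5 h5 0 0 * π^(5/2) / (a b) = 123.33...`.
-/

namespace H46.SB

/-- the coefficients times `10^6` -/
def t5 : List (List ℤ) :=
  [[1000000, -385782, 1982105, -2086417, 1475758, -227951],
   [-911608, 6927410, -9775159, 4917175, -700255, 0],
   [4437439, -20205228, 15050466, -2109687, 0, 0],
   [-5809170, 15887110, -3887647, 0, 0, 0],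
   [2886421, -2499635, 0, 0, 0, 0],
   [-336320, 0, 0, 0, 0, 0]]

/-- the coefficients of the certificate in dimension 5 -/
def h5 (a b : ℕ) : ℚ := (((t5.getD a []).getD b 0 : ℤ) : ℚ) / 1000000

/-- the first scaling parameter in dimension 5 -/
def a5 : ℚ := 21 / 50

/-- the second scaling parameter in dimension 5 -/
def b5 : ℚ := 5 / 8

end H46.SB
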