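import Pool.Agent.H46.SB.CondOf
import Pool.Agent.H46.SB.Cert5
import Pool.Agent.H46.SB.Bern

/-!
# The certificate in dimension 5: the polynomial facts

`sgn5`: for every `ρ ∈ [0, 1]` the polynomial `∑ ck h5 k ρ z ^ k` has a single sign change.
-/

namespace H46.SB

/-- `10^6` times the coefficients: outer index power of `z`, inner index power of `ρ` -/
def M5 : List (List ℤ) :=
  [[1000000, 0, 0, 0, 0, 0], [-385782, -525826, 0, 0, 0, 0], [1982105, 2963200, -507866, 0, 0, 0],
   [-2086417, -3515908, -6914161, 6707316, 0, 0], [1475758, -985857, 9153489, -5365329, -1391640, 0],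
   [-227951, 439500, -1588177, 519394, 607863, -86949]]

theorem h5_zero : ∀ a b, 5 < a + b → h5 a b = 0 := by
  intro a b hab
  have h6 : ∀ a, 6 ≤ a → ∀ b, h5 a b = 0 := by
    intro a ha b
    have : t5.getD a [] = [] := List.getD_eq_default _ _ (by simpa [t5] using ha)
    unfold h5
    rw [this]
    simp
  have h7 : ∀ a b, 6 ≤ b → h5 a b = 0 := by
    intro a b hb
    rcases le_or_gt 6 a with ha | ha
    · exact h6 a ha b
    · have h8 : (t5.getD a []).length ≤ 6 := by
        interval_cases a <;> simp [t5]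
      have : (t5.getD a []).getD b 0 = 0 := List.getD_eq_default _ _ (h8.trans hb)
      unfold h5
      rw [this]
      simp
  rcases le_or_gt 6 a with ha | ha
  · exact h6 a ha b
  rcases le_or_gt 6 b with hb | hb
  · exact h7 a b hb
  interval_cases a <;> interval_cases b <;> first | (exfalso; omega) | simp [h5, t5]

theorem chk5 : sgnChk M5 64 256 8 0 [(16, [632, 1264], 1264, [2048]),
   (32, [320, 640, 1280], 1280, [2048]),
   (65, [336, 672, 1344], 1344, [2048])] = true := by decide +kernel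

theorem ev5 (ρ z : ℝ) : ∑ k ∈ Finset.range (5 + 1), ck h5 k ρ * z ^ k = evM M5 z ρ / 1000000 := by
  simp only [ck, h5, t5, M5, evM, evL, Finset.sum_range_succ, Finset.sum_range_zero, List.getD_cons_zero,
    List.getD_cons_succ, Nat.sub_self, Nat.sub_zero]
  norm_num
  ring

/-- single sign change -/
theorem sgn5 (ρ : ℝ) (h0 : 0 ≤ ρ) (h1 : ρ ≤ 1) (x y : ℝ) (hx : 0 < x) (hxy : x ≤ y)
    (hle : ∑ k ∈ Finset.range (5 + 1), ck h5 k ρ * x ^ k ≤ 0) :
    ∑ k ∈ Finset.range (5 + 1), ck h5 k ρ * y ^ k ≤ 0 := by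
  have hM : ∀ L ∈ M5, L.length = 6 := by simp [M5]
  have h := sgnChk_spec hM (by norm_num) (by norm_num) _ 0 chk5 (ρ := ρ)
    (by push_cast; linarith) h1
  rw [ev5] at hle ⊢
  have h2 : evM M5 x ρ ≤ 0 := by linarith
  have h3 : evM M5 y ρ ≤ 0 := h x y hx hxy h2
  linarith

end H46.SB
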