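import Pool.Agent.H49.SG.Defs

/-!
# The certificate in dimension 6: coefficients

`d = 6`, `n = 4`, `K = 7`, `a = 11/50`, `b = 11/25`; `h6 a b = (integer) / 10000000`, zero for `a + b > 7`.
The bound is `hat 7 h6 0 0 * π^(6/2) / (a b) = 564.085...`.
-/

namespace H46.SB

/-- the coefficients times `10000000` -/
def t6 : List (List ℤ) :=
  [[10000000, -14949281, 103844630, -212640627, 144310419, -32089319, 2454538, -60280],
   [-15860161, 193430657, -642777317, 687950164, -240832637, 29342923, -1060749],
   [105784322, -561829420, 763587800, -380985316, 69439657, -3698003],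
   [-219673566, 500690724, -213899981, 52255969, -5084129],
   [155990766, -145730837, 8200246, -912935],
   [-38725708, 17328766, 591351],
   [3646999, -869945],
   [-115171]]

/-- the coefficients of the certificate in dimension 6 -/
def h6 (a b : ℕ) : ℚ := (((t6.getD a []).getD b 0 : ℤ) : ℚ) / 10000000

/-- the first scaling parameter in dimension 6 -/
def a6 : ℚ := 11 / 50

/-- the second scaling parameter in dimension 6 -/
def b6 : ℚ := 11 / 25

end H46.SB
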