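import Pool.Agent.H46.SB.CondOf
import Pool.Agent.H46.SB.Cert6
import Pool.Agent.H46.SB.Bern3
import Pool.Agent.H46.SB.TabZero

/-!
# The certificate in dimension 6: the polynomial facts

`sgn6`: for every `ρ ∈ [0, 1]` the polynomial `∑ ck h6 k ρ z ^ k` has a single sign change.
-/

namespace H46.SB

/-- `10000000` times the coefficients: outer index power of `z`, inner index power of `ρ` -/
def M6 : List (List ℤ) :=
  [[10000000, 0, 0, 0, 0, 0, 0, 0],
   [-14949281, -910880, 0, 0, 0, 0, 0, 0],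
   [103844630, -14258603, 16198295, 0, 0, 0, 0, 0],
   [-212640627, -4855436, 85803333, -87980836, 0, 0, 0, 0],
   [144310419, 110708488, -434400178, 460123940, -124751903, 0, 0, 0],
   [-32089319, -80386042, 261452042, -195046665, -58002870, 65347146, 0, 0],
   [2454538, 14615695, -40456888, 18835811, 11459121, 11924940, -15186218, 0],
   [-60280, -638789, 1400611, -395549, 1548731, -4839943, 2997583, -127535]]

theorem h6_zero : ∀ a b, 7 < a + b → h6 a b = 0 := by
  intro a b hab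
  have h := getD_zero (t := t6) (K := 7) (by decide) (by decide) a b hab
  unfold h6
  rw [h]
  simp

theorem chk6 : sgnChk3 M6 256 256 ⟨[272, 408, 544, 1088], 1088, [1280], 1280, [2688, 3040, 3392, 4096], 16⟩ 0
  [(16, ⟨[152, 228, 266, 285, 304, 608, 1216], 1216, [1408], 1408, [3264, 4192, 5120], 20⟩),
   (32, ⟨[272, 544, 1088], 1088, [1408], 1408, [2752, 3088, 3424, 4096], 16⟩),
   (64, ⟨[272, 544, 1088], 1088, [1280], 1280, [2688, 3040, 3392, 4096], 16⟩),
   (128, ⟨[288, 576, 1152], 1152, [1280], 1280, [3072], 12⟩),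
   (160, ⟨[288, 576, 1152], 1152, [1280], 1280, [4096], 16⟩),
   (176, ⟨[144, 288, 576, 1152], 1152, [1280], 1280, [3200, 4160, 4400, 4640, 5120], 20⟩),
   (192, ⟨[144, 216, 252, 288, 576, 1152], 1152, [1344], 1344, [3232, 4176, 5120], 20⟩),
   (256, ⟨[272, 280, 284, 289, 306, 340, 408, 544, 1088], 1088, [1280], 1280, [2688, 3040, 3392, 4096], 16⟩)] = true := by
  decide +kernel

theorem ev6 (ρ z : ℝ) :
    ∑ k ∈ Finset.range (7 + 1), ck h6 k ρ * z ^ k = evM M6 z ρ / 10000000 := by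
  simp only [ck, h6, t6, M6, evM, evL, Finset.sum_range_succ, Finset.sum_range_zero, List.getD_cons_zero,
    List.getD_cons_succ, Nat.sub_self, Nat.sub_zero]
  norm_num
  ring

/-- single sign change -/
theorem sgn6 (ρ : ℝ) (h0 : 0 ≤ ρ) (h1 : ρ ≤ 1) (x y : ℝ) (hx : 0 < x) (hxy : x ≤ y)
    (hle : ∑ k ∈ Finset.range (7 + 1), ck h6 k ρ * x ^ k ≤ 0) :
    ∑ k ∈ Finset.range (7 + 1), ck h6 k ρ * y ^ k ≤ 0 := by
  have hM : ∀ L ∈ M6, L.length = 8 := by simp [M6]
  have h := sgnChk3_spec hM (by norm_num) (by norm_num) _ 0 chk6 (ρ := ρ)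
    (by push_cast; linarith) h1
  rw [ev6] at hle ⊢
  have h2 : evM M6 x ρ ≤ 0 := by linarith
  have h3 : evM M6 y ρ ≤ 0 := h x y hx hxy h2
  linarith

end H46.SB
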