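import Pool.Agent.H49.SG.Defs
import Pool.Agent.H81.LP.Kbasic

/-!
# The transform `Jn` preserves single sign changes

`Dec φ`: `φ` is continuous and `|φ z| ≤ C / z` for `z > 0`; then all the integrals `Jn n φ p`, `p > 0`,
converge absolutely.  `Jn_succ`: the recursion.  `cross`: if `φ x ≤ 0` implies `φ y ≤ 0` for all
`0 < x ≤ y`, then the same holds for `Jn n φ`.  `cross_rev`: if `0 ≤ φ y` implies `0 ≤ φ x` for all
`0 < x ≤ y`, and ... (reversed version).
-/

namespace H46.SB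

open MeasureTheory H81.LP H49.SG

/-- continuous and at most `C / z` -/
def Dec (φ : ℝ → ℝ) : Prop := Continuous φ ∧ ∃ C, ∀ z, 0 < z → |φ z| ≤ C / z

/-- the transforms of `z ^ k exp (-z)` -/
noncomputable def Fk (n k : ℕ) (p : ℝ) : ℝ := Jn n (fun z => z ^ k * Real.exp (-z)) p

theorem Dec.add {φ ψ : ℝ → ℝ} (h1 : Dec φ) (h2 : Dec ψ) : Dec (fun z => φ z + ψ z) := by
  obtain ⟨c1, C1, h1⟩ := h1
  obtain ⟨c2, C2, h2⟩ := h2
  refine ⟨c1.add c2, C1 + C2, fun z hz => ?_⟩
  rw [add_div]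
  exact (abs_add_le _ _).trans (add_le_add (h1 z hz) (h2 z hz))

theorem Dec.const_mul {φ : ℝ → ℝ} (h : Dec φ) (c : ℝ) : Dec (fun z => c * φ z) := by
  obtain ⟨c1, C1, h1⟩ := h
  refine ⟨continuous_const.mul c1, |c| * C1, fun z hz => ?_⟩
  rw [abs_mul, mul_div_assoc]
  exact mul_le_mul_of_nonneg_left (h1 z hz) (abs_nonneg _)

theorem Dec.zero : Dec (fun _ => 0) := ⟨continuous_const, 0, fun z _ => by simp⟩

theorem Dec.sum {ι : Type*} (s : Finset ι) (φ : ι → ℝ → ℝ) (h : ∀ i ∈ s, Dec (φ i)) :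
    Dec (fun z => ∑ i ∈ s, φ i z) := by
  classical
  induction s using Finset.induction_on with
  | empty => simpa using Dec.zero
  | insert a s ha ih =>
    simp only [Finset.sum_insert ha]
    exact (h a (Finset.mem_insert_self _ _)).add (ih fun i hi => h i (Finset.mem_insert_of_mem hi))

theorem dec_pow (k : ℕ) : Dec (fun z => z ^ k * Real.exp (-z)) := by
  refine ⟨by fun_prop, (k + 1).factorial, fun z hz => ?_⟩
  rw [abs_of_nonneg (by positivity), le_div_iff₀ hz]
  have h1 : z ^ (k + 1) / (k + 1).factorial ≤ Real.exp z := Real.pow_div_factorial_le_exp z hz.le _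
  rw [div_le_iff₀ (by positivity)] at h1
  calc z ^ k * Real.exp (-z) * z = z ^ (k + 1) * Real.exp (-z) := by ring
    _ ≤ (Real.exp z * (k + 1).factorial) * Real.exp (-z) :=
        mul_le_mul_of_nonneg_right h1 (Real.exp_pos _).le
    _ = (k + 1).factorial * (Real.exp z * Real.exp (-z)) := by ring
    _ = (k + 1).factorial := by rw [← Real.exp_add]; simp

theorem Jn_integrable {φ : ℝ → ℝ} (hφ : Dec φ) (n : ℕ) {p : ℝ} (hp : 0 < p) :
    Integrable (fun v : Fin n → ℝ =>
      Real.exp (-∑ i, Real.exp (v i)) * φ (p * Real.exp (-(∑ i, v i) / 2))) := by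
  obtain ⟨hc, C, hC⟩ := hφ
  have h1 := ((prod_gamma n (a := 1 / 2) (by norm_num)).1.const_mul (C / p))
  refine h1.mono' ?_ ?_
  · apply Continuous.aestronglyMeasurable
    fun_prop
  · refine Filter.Eventually.of_forall (fun v => ?_)
    rw [Real.norm_eq_abs, abs_mul, abs_of_pos (Real.exp_pos _)]
    have h2 := hC (p * Real.exp (-(∑ i, v i) / 2)) (by positivity)
    have h3 : ∏ i, Real.exp (-Real.exp (v i) + 1 / 2 * v i) =
        Real.exp (-(∑ i, Real.exp (v i))) * Real.exp ((∑ i, v i) / 2) := by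
      rw [← Real.exp_sum, ← Real.exp_add, Finset.sum_add_distrib, Finset.sum_neg_distrib,
        ← Finset.mul_sum]
      congr 1
      ring
    rw [h3]
    calc Real.exp (-∑ i, Real.exp (v i)) * |φ (p * Real.exp (-(∑ i, v i) / 2))|
        ≤ Real.exp (-∑ i, Real.exp (v i)) * (C / (p * Real.exp (-(∑ i, v i) / 2))) :=
          mul_le_mul_of_nonneg_left h2 (Real.exp_pos _).le
      _ = C / p * (Real.exp (-∑ i, Real.exp (v i)) * Real.exp ((∑ i, v i) / 2)) := by
          rw [div_mul_eq_div_div, neg_div, Real.exp_neg ((∑ i, v i) / 2)]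
          rw [div_inv_eq_mul]
          ring

theorem Jn_zero (φ : ℝ → ℝ) (p : ℝ) : Jn 0 φ p = φ p := by
  unfold Jn
  rw [MeasureTheory.Measure.volume_pi_eq_dirac]
  simp

theorem Jn_add {φ ψ : ℝ → ℝ} (h1 : Dec φ) (h2 : Dec ψ) (n : ℕ) {p : ℝ} (hp : 0 < p) :
    Jn n (fun z => φ z + ψ z) p = Jn n φ p + Jn n ψ p := by
  unfold Jn
  rw [← integral_add (Jn_integrable h1 n hp) (Jn_integrable h2 n hp)]
  congr 1
  funext v
  ring

theorem Jn_const_mul (φ : ℝ → ℝ) (c : ℝ) (n : ℕ) (p : ℝ) :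
    Jn n (fun z => c * φ z) p = c * Jn n φ p := by
  unfold Jn
  rw [← integral_const_mul]
  congr 1
  funext v
  ring

theorem Jn_zero_fun (n : ℕ) (p : ℝ) : Jn n (fun _ => 0) p = 0 := by
  unfold Jn
  simp

theorem Jn_sum {ι : Type*} (s : Finset ι) (φ : ι → ℝ → ℝ) (h : ∀ i ∈ s, Dec (φ i)) (n : ℕ)
    {p : ℝ} (hp : 0 < p) :
    Jn n (fun z => ∑ i ∈ s, φ i z) p = ∑ i ∈ s, Jn n (φ i) p := by
  classical
  induction s using Finset.induction_on with
  | empty => simpa using Jn_zero_fun n p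
  | insert a s ha ih =>
    simp only [Finset.sum_insert ha]
    rw [Jn_add (h a (Finset.mem_insert_self _ _))
      (Dec.sum s φ fun i hi => h i (Finset.mem_insert_of_mem hi)) n hp,
      ih fun i hi => h i (Finset.mem_insert_of_mem hi)]

/-- the transform of a polynomial times `exp (-z)` -/
theorem Jn_poly (K : ℕ) (c : ℕ → ℝ) (n : ℕ) {p : ℝ} (hp : 0 < p) :
    Jn n (fun z => (∑ k ∈ Finset.range (K + 1), c k * z ^ k) * Real.exp (-z)) p =
      ∑ k ∈ Finset.range (K + 1), c k * Fk n k p := by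
  have h1 : (fun z : ℝ => (∑ k ∈ Finset.range (K + 1), c k * z ^ k) * Real.exp (-z)) =
      fun z => ∑ k ∈ Finset.range (K + 1), c k * (z ^ k * Real.exp (-z)) := by
    funext z
    rw [Finset.sum_mul]
    exact Finset.sum_congr rfl fun k _ => by ring
  rw [h1, Jn_sum _ (fun k z => c k * (z ^ k * Real.exp (-z)))
    (fun k _ => (dec_pow k).const_mul _) n hp]
  exact Finset.sum_congr rfl fun k _ => Jn_const_mul _ _ _ _

theorem dec_poly (K : ℕ) (c : ℕ → ℝ) :
    Dec (fun z => (∑ k ∈ Finset.range (K + 1), c k * z ^ k) * Real.exp (-z)) := by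
  have h1 : (fun z : ℝ => (∑ k ∈ Finset.range (K + 1), c k * z ^ k) * Real.exp (-z)) =
      fun z => ∑ k ∈ Finset.range (K + 1), c k * (z ^ k * Real.exp (-z)) := by
    funext z
    rw [Finset.sum_mul]
    exact Finset.sum_congr rfl fun k _ => by ring
  rw [h1]
  exact Dec.sum _ _ fun k _ => (dec_pow k).const_mul _

theorem jrec_prod {φ : ℝ → ℝ} (hφ : Dec φ) (n : ℕ) {p : ℝ} (hp : 0 < p) :
    Integrable (fun x : ℝ × (Fin n → ℝ) => Real.exp (-Real.exp x.1) *
      (Real.exp (-∑ i, Real.exp (x.2 i)) *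
        φ ((p * Real.exp (-x.1 / 2)) * Real.exp (-(∑ i, x.2 i) / 2))))
      ((volume : Measure ℝ).prod (volume : Measure (Fin n → ℝ))) ∧
    Jn (n + 1) φ p = ∫ x : ℝ × (Fin n → ℝ), Real.exp (-Real.exp x.1) *
      (Real.exp (-∑ i, Real.exp (x.2 i)) *
        φ ((p * Real.exp (-x.1 / 2)) * Real.exp (-(∑ i, x.2 i) / 2)))
      ∂((volume : Measure ℝ).prod (volume : Measure (Fin n → ℝ))) := by
  have he := volume_preserving_piFinSuccAbove (fun _ : Fin (n + 1) => ℝ) 0
  set e := MeasurableEquiv.piFinSuccAbove (fun _ : Fin (n + 1) => ℝ) 0 with hedef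
  let g : ℝ × (Fin n → ℝ) → ℝ := fun x => Real.exp (-Real.exp x.1) *
      (Real.exp (-∑ i, Real.exp (x.2 i)) *
        φ ((p * Real.exp (-x.1 / 2)) * Real.exp (-(∑ i, x.2 i) / 2)))
  have hg : ∀ v : Fin (n + 1) → ℝ, g (e v) =
      Real.exp (-∑ i, Real.exp (v i)) * φ (p * Real.exp (-(∑ i, v i) / 2)) := by
    intro v
    have h1 : (e v).1 = v 0 := rfl
    have h2 : ∀ i, (e v).2 i = v i.succ := fun i => rfl
    simp only [g, h1, h2, Fin.sum_univ_succ, neg_add]
    rw [← mul_assoc, ← Real.exp_add, mul_assoc p, ← Real.exp_add]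
    congr 4
    ring
  have hint : Integrable g (volume : Measure (ℝ × (Fin n → ℝ))) := by
    rw [← he.integrable_comp_emb e.measurableEmbedding]
    have : (g ∘ e) = fun v : Fin (n + 1) → ℝ =>
      Real.exp (-∑ i, Real.exp (v i)) * φ (p * Real.exp (-(∑ i, v i) / 2)) := by
      funext v
      exact hg v
    rw [this]
    exact Jn_integrable hφ (n + 1) hp
  refine ⟨hint, ?_⟩
  have h1 : Jn (n + 1) φ p = ∫ v : Fin (n + 1) → ℝ, g (e v) := by
    unfold Jn
    congr 1
    funext v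
    exact (hg v).symm
  rw [h1, he.integral_comp' (g := g)]
  rfl

theorem Jn_fubini {φ : ℝ → ℝ} (hφ : Dec φ) (n : ℕ) {p : ℝ} (hp : 0 < p) :
    Integrable (fun t : ℝ => Real.exp (-Real.exp t) * Jn n φ (p * Real.exp (-t / 2))) ∧
    Jn (n + 1) φ p = ∫ t : ℝ, Real.exp (-Real.exp t) * Jn n φ (p * Real.exp (-t / 2)) := by
  obtain ⟨hint, hE⟩ := jrec_prod hφ n hp
  have hinner : ∀ t : ℝ, ∫ u : Fin n → ℝ, Real.exp (-Real.exp t) *
      (Real.exp (-∑ i, Real.exp (u i)) *
        φ ((p * Real.exp (-t / 2)) * Real.exp (-(∑ i, u i) / 2))) =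
      Real.exp (-Real.exp t) * Jn n φ (p * Real.exp (-t / 2)) := by
    intro t
    rw [integral_const_mul]
    rfl
  constructor
  · have h := Integrable.integral_prod_left hint
    simpa only [hinner] using h
  · rw [hE, integral_prod _ hint]
    simp only [hinner]

/-- one step of the crossing lemma -/
theorem cross_step {J : ℝ → ℝ} (hJ : ∀ x y, 0 < x → x ≤ y → J x ≤ 0 → J y ≤ 0)
    (hint : ∀ p, 0 < p → Integrable (fun t : ℝ => Real.exp (-Real.exp t) * J (p * Real.exp (-t / 2))))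
    {x y : ℝ} (hx : 0 < x) (hxy : x ≤ y)
    (hle : ∫ t : ℝ, Real.exp (-Real.exp t) * J (x * Real.exp (-t / 2)) ≤ 0) :
    ∫ t : ℝ, Real.exp (-Real.exp t) * J (y * Real.exp (-t / 2)) ≤ 0 := by
  have hy : 0 < y := hx.trans_le hxy
  set c : ℝ := y / x with hc
  have hc1 : 1 ≤ c := by rw [hc, le_div_iff₀ hx]; simpa using hxy
  have hc0 : 0 < c := by linarith
  set L : ℝ := 2 * Real.log c with hL
  -- translation
  have h1 : ∫ t : ℝ, Real.exp (-Real.exp t) * J (y * Real.exp (-t / 2)) =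
      ∫ s : ℝ, Real.exp (-Real.exp (s + L)) * J (y * Real.exp (-(s + L) / 2)) :=
    (integral_add_right_eq_self (fun t : ℝ => Real.exp (-Real.exp t) *
      J (y * Real.exp (-t / 2))) L).symm
  have hexpL : Real.exp L = c ^ 2 := by
    rw [hL, two_mul, Real.exp_add, Real.exp_log hc0, sq]
  have h2 : ∀ s : ℝ, y * Real.exp (-(s + L) / 2) = x * Real.exp (-s / 2) := by
    intro s
    have h3 : -(s + L) / 2 = -s / 2 + -Real.log c := by rw [hL]; ring
    rw [h3, Real.exp_add, Real.exp_neg (Real.log c), Real.exp_log hc0, hc]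
    field_simp
  -- the weight
  set W : ℝ → ℝ := fun s => Real.exp (-((c ^ 2 - 1) * Real.exp s)) with hW
  have hWanti : ∀ s t, s ≤ t → W t ≤ W s := by
    intro s t hst
    apply Real.exp_le_exp.2
    have h4 : (c ^ 2 - 1) * Real.exp s ≤ (c ^ 2 - 1) * Real.exp t :=
      mul_le_mul_of_nonneg_left (Real.exp_le_exp.2 hst) (by nlinarith)
    linarith
  have hW0 : ∀ s, 0 ≤ W s := fun s => (Real.exp_pos _).le
  have hW1 : ∀ s, W s ≤ 1 := by
    intro s
    apply Real.exp_le_one_iff.2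
    have : 0 ≤ (c ^ 2 - 1) * Real.exp s := mul_nonneg (by nlinarith) (Real.exp_pos _).le
    linarith
  have h5 : ∀ s : ℝ, Real.exp (-Real.exp (s + L)) * J (y * Real.exp (-(s + L) / 2)) =
      W s * (Real.exp (-Real.exp s) * J (x * Real.exp (-s / 2))) := by
    intro s
    rw [h2, ← mul_assoc, Real.exp_add, hexpL]
    congr 1
    simp only [hW]
    rw [← Real.exp_add]
    congr 1
    ring
  rw [h1]
  simp only [h5]
  -- the separating constant
  set S : Set ℝ := insert 0 (W '' {s | 0 < J (x * Real.exp (-s / 2))}) with hS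
  have hSb : BddAbove S := by
    refine ⟨1, ?_⟩
    rintro _ (rfl | ⟨s, _, rfl⟩)
    · exact zero_le_one
    · exact hW1 s
  have hSn : S.Nonempty := ⟨0, Set.mem_insert _ _⟩
  set w0 : ℝ := sSup S with hw0
  have hw0n : 0 ≤ w0 := le_csSup hSb (Set.mem_insert _ _)
  have hpos : ∀ s, 0 < J (x * Real.exp (-s / 2)) → W s ≤ w0 := fun s hs =>
    le_csSup hSb (Set.mem_insert_of_mem _ ⟨s, hs, rfl⟩)
  have hneg : ∀ s, J (x * Real.exp (-s / 2)) ≤ 0 → w0 ≤ W s := by
    intro s hs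
    apply csSup_le hSn
    rintro _ (rfl | ⟨t, ht, rfl⟩)
    · exact hW0 s
    · apply hWanti
      by_contra hcon
      push Not at hcon
      have h6 : J (x * Real.exp (-t / 2)) ≤ 0 := by
        apply hJ (x * Real.exp (-s / 2)) _ (by positivity) _ hs
        apply mul_le_mul_of_nonneg_left _ hx.le
        apply Real.exp_le_exp.2
        linarith
      exact absurd ht (not_lt.2 h6)
  have hkey : ∀ s, W s * (Real.exp (-Real.exp s) * J (x * Real.exp (-s / 2))) ≤
      w0 * (Real.exp (-Real.exp s) * J (x * Real.exp (-s / 2))) := by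
    intro s
    rcases le_or_gt (J (x * Real.exp (-s / 2))) 0 with hs | hs
    · exact mul_le_mul_of_nonpos_right (hneg s hs)
        (mul_nonpos_of_nonneg_of_nonpos (Real.exp_pos _).le hs)
    · exact mul_le_mul_of_nonneg_right (hpos s hs) (mul_nonneg (Real.exp_pos _).le hs.le)
  have hi1 := hint x hx
  have hi2 : Integrable (fun s : ℝ => W s *
      (Real.exp (-Real.exp s) * J (x * Real.exp (-s / 2)))) := by
    refine hi1.bdd_mul (c := 1) ?_ ?_
    · apply Continuous.aestronglyMeasurable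
      simp only [hW]
      fun_prop
    · refine Filter.Eventually.of_forall fun s => ?_
      rw [Real.norm_eq_abs, abs_of_nonneg (hW0 s)]
      exact hW1 s
  calc ∫ s : ℝ, W s * (Real.exp (-Real.exp s) * J (x * Real.exp (-s / 2)))
      ≤ ∫ s : ℝ, w0 * (Real.exp (-Real.exp s) * J (x * Real.exp (-s / 2))) :=
        integral_mono hi2 (hi1.const_mul _) hkey
    _ = w0 * ∫ s : ℝ, Real.exp (-Real.exp s) * J (x * Real.exp (-s / 2)) := integral_const_mul _ _
    _ ≤ 0 := mul_nonpos_of_nonneg_of_nonpos hw0n hle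

/-- THE CROSSING LEMMA: a single sign change is preserved -/
theorem cross {φ : ℝ → ℝ} (hφ : Dec φ) (h : ∀ x y, 0 < x → x ≤ y → φ x ≤ 0 → φ y ≤ 0) (n : ℕ) :
    ∀ x y, 0 < x → x ≤ y → Jn n φ x ≤ 0 → Jn n φ y ≤ 0 := by
  induction n with
  | zero =>
    intro x y hx hxy
    rw [Jn_zero, Jn_zero]
    exact h x y hx hxy
  | succ n ih =>
    intro x y hx hxy hle
    rw [(Jn_fubini hφ n (hx.trans_le hxy)).2]
    rw [(Jn_fubini hφ n hx).2] at hle
    exact cross_step ih (fun p hp => (Jn_fubini hφ n hp).1) hx hxy hle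

/-- positive, then nonpositive -/
theorem cross' {φ : ℝ → ℝ} (hφ : Dec φ) {z0 : ℝ} (h1 : ∀ z, 0 < z → z < z0 → 0 < φ z)
    (h2 : ∀ z, z0 ≤ z → φ z ≤ 0) (n : ℕ) {x y : ℝ} (hx : 0 < x) (hxy : x ≤ y)
    (hle : Jn n φ x ≤ 0) : Jn n φ y ≤ 0 := by
  refine cross hφ ?_ n x y hx hxy hle
  intro u v hu huv hφu
  apply h2
  by_contra hcon
  push Not at hcon
  exact absurd (h1 u hu (huv.trans_lt hcon)) (not_lt.2 hφu)

end H46.SB
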