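import Pool.Agent.H46.SB.Cross

/-!
# The conditions in terms of the functions `Fk`

`ck h k ρ` is the coefficient of `z ^ k` in `z ↦ q (ρ z) ((1 - ρ) z)`.  `condB_of`: the structure `CondB`
follows from a pointwise single sign change of the polynomials `∑ ck h k ρ z ^ k`, the inequality (P) on
the boundary `p = (A r² + B)/|r - 1|`, and (D).
-/

namespace H46.SB

open MeasureTheory H81.LP H49.SG

/-- the coefficient of `z ^ k` in `q (ρ z) ((1 - ρ) z)` -/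
noncomputable def ck (h : ℕ → ℕ → ℚ) (k : ℕ) (ρ : ℝ) : ℝ :=
  ∑ a ∈ Finset.range (k + 1), (h a (k - a) : ℝ) * ρ ^ a * (1 - ρ) ^ (k - a)

theorem qf_diag {K : ℕ} {h : ℕ → ℕ → ℚ} (hz : ∀ a b, K < a + b → h a b = 0) (ρ z : ℝ) :
    qf K h (ρ * z) ((1 - ρ) * z) = ∑ k ∈ Finset.range (K + 1), ck h k ρ * z ^ k := by
  unfold qf ck
  have h1 : ∑ k ∈ Finset.range (K + 1), (∑ a ∈ Finset.range (k + 1),
      (h a (k - a) : ℝ) * ρ ^ a * (1 - ρ) ^ (k - a)) * z ^ k =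
      ∑ k ∈ Finset.range (K + 1), ∑ a ∈ Finset.range (k + 1),
        (h a (k - a) : ℝ) * ρ ^ a * (1 - ρ) ^ (k - a) * z ^ k :=
    Finset.sum_congr rfl fun k _ => Finset.sum_mul _ _ _
  have h2 : ∑ k ∈ Finset.range (K + 1), ∑ a ∈ Finset.range (k + 1),
        (h a (k - a) : ℝ) * ρ ^ a * (1 - ρ) ^ (k - a) * z ^ k =
      ∑ a ∈ Finset.range (K + 1), ∑ k ∈ Finset.Ico a (K + 1),
        (h a (k - a) : ℝ) * ρ ^ a * (1 - ρ) ^ (k - a) * z ^ k := by
    apply Finset.sum_comm'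
    intro x y
    simp only [Finset.mem_range, Finset.mem_Ico]
    omega
  rw [h1, h2]
  apply Finset.sum_congr rfl
  intro a ha
  rw [Finset.sum_Ico_eq_sum_range]
  have h3 : ∑ b ∈ Finset.range (K + 1), (h a b : ℝ) * (ρ * z) ^ a * ((1 - ρ) * z) ^ b =
      ∑ b ∈ Finset.range (K + 1 - a), (h a b : ℝ) * (ρ * z) ^ a * ((1 - ρ) * z) ^ b := by
    symm
    apply Finset.sum_subset
    · intro x hx
      rw [Finset.mem_range] at hx ⊢
      omega
    · intro x _ hx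
      rw [Finset.mem_range] at hx
      rw [hz a x (by omega)]
      simp
  rw [h3]
  apply Finset.sum_congr rfl
  intro b _
  rw [Nat.add_sub_cancel_left, mul_pow, mul_pow, pow_add]
  ring

theorem lc_zero : ∀ a i : ℕ, a < i → lc a i = 0
  | 0, 0, h => absurd h (lt_irrefl _)
  | 0, i + 1, _ => by simp [lc]
  | a + 1, 0, h => absurd h (by omega)
  | a + 1, i + 1, h => by
    rw [lc, lc_zero a i (by omega), lc_zero a (i + 1) (by omega)]
    simp

theorem hat_zero {K : ℕ} {h : ℕ → ℕ → ℚ} (hz : ∀ a b, K < a + b → h a b = 0) :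
    ∀ i j, K < i + j → hat K h i j = 0 := by
  intro i j hij
  unfold hat
  apply Finset.sum_eq_zero
  intro a _
  apply Finset.sum_eq_zero
  intro b _
  by_cases h1 : a < i
  · rw [lc_zero a i h1]; ring
  by_cases h2 : b < j
  · rw [lc_zero b j h2]; ring
  rw [hz a b (by omega)]
  ring

theorem Jn_diag {K : ℕ} {h : ℕ → ℕ → ℚ} (hz : ∀ a b, K < a + b → h a b = 0) (n : ℕ) (ρ : ℝ) {p : ℝ}
    (hp : 0 < p) :
    Jn n (fun z => qf K h (ρ * z) ((1 - ρ) * z) * Real.exp (-z)) p =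
      ∑ k ∈ Finset.range (K + 1), ck h k ρ * Fk n k p := by
  rw [← Jn_poly K (fun k => ck h k ρ) n hp]
  congr 1
  funext z
  rw [qf_diag hz]

/-- the structure `CondB` from (S), (P), (D) -/
theorem condB_of {n K : ℕ} {h : ℕ → ℕ → ℚ} {A B : ℝ} (hz : ∀ a b, K < a + b → h a b = 0)
    (hA : 0 < A) (hB : 0 < B)
    (hS : ∀ ρ : ℝ, 0 ≤ ρ → ρ ≤ 1 → ∀ x y : ℝ, 0 < x → x ≤ y →
      ∑ k ∈ Finset.range (K + 1), ck h k ρ * x ^ k ≤ 0 →
      ∑ k ∈ Finset.range (K + 1), ck h k ρ * y ^ k ≤ 0)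
    (hP : ∀ r : ℝ, 0 ≤ r → r ≠ 1 → ∑ k ∈ Finset.range (K + 1),
      ck h k (A * r ^ 2 / (A * r ^ 2 + B)) * Fk n k ((A * r ^ 2 + B) / |r - 1|) ≤ 0)
    (hD : ∀ ρ p : ℝ, 0 ≤ ρ → ρ ≤ 1 → 0 < p →
      0 ≤ ∑ k ∈ Finset.range (K + 1), ck (hat K h) k ρ * Fk n k p) :
    CondB n K h A B := by
  refine ⟨hA, hB, ?_, ?_⟩
  · intro r p hr hr1 hp
    have hq : 0 < A * r ^ 2 + B := by positivity
    have hm : 0 < (A * r ^ 2 + B) / |r - 1| := div_pos hq (abs_pos.2 (sub_ne_zero.2 hr1))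
    set ρ : ℝ := A * r ^ 2 / (A * r ^ 2 + B) with hρ
    have h1 : B / (A * r ^ 2 + B) = 1 - ρ := by
      rw [hρ]
      field_simp
      ring
    have hρ0 : 0 ≤ ρ := by positivity
    have hρ1 : ρ ≤ 1 := by
      rw [hρ, div_le_one hq]
      linarith
    rw [h1]
    have h2 : (fun z : ℝ => qf K h (ρ * z) ((1 - ρ) * z) * Real.exp (-z)) =
        fun z => (∑ k ∈ Finset.range (K + 1), ck h k ρ * z ^ k) * Real.exp (-z) := by
      funext z
      rw [qf_diag hz]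
    rw [h2]
    apply cross (dec_poly K _) _ n _ p hm hp
    · rw [Jn_poly K _ n hm]
      exact hP r hr hr1
    · intro x y hx hxy hle
      have h3 : ∑ k ∈ Finset.range (K + 1), ck h k ρ * x ^ k ≤ 0 := by
        by_contra hcon
        push Not at hcon
        exact absurd hle (not_le.2 (mul_pos hcon (Real.exp_pos _)))
      exact mul_nonpos_of_nonpos_of_nonneg (hS ρ hρ0 hρ1 x y hx hxy h3) (Real.exp_pos _).le
  · intro ρ p h0 h1 hp
    rw [Jn_diag (hat_zero hz) n ρ hp]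
    exact hD ρ p h0 h1 hp

end H46.SB
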