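import Pool.Agent.H46.SB.Cross
import Pool.Agent.H25.SD.Fam

/-!
# The functions `Fk n k` form a family `Fam`: positivity and `p F_k' = k F_k - F_(k+1)`
-/

namespace H46.SB

open MeasureTheory H81.LP H49.SG

theorem Fk_pos (n k : ℕ) {p : ℝ} (hp : 0 < p) : 0 < Fk n k p := by
  unfold Fk Jn
  have hint := Jn_integrable (dec_pow k) n hp
  rw [integral_pos_iff_support_of_nonneg _ hint]
  · have h1 : Function.support (fun v : Fin n → ℝ => Real.exp (-∑ i, Real.exp (v i)) *
        ((p * Real.exp (-(∑ i, v i) / 2)) ^ k * Real.exp (-(p * Real.exp (-(∑ i, v i) / 2))))) =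
        Set.univ := by
      ext v
      simp only [Function.mem_support, Set.mem_univ, iff_true]
      positivity
    rw [h1]
    exact Measure.measure_univ_pos.2 (NeZero.ne _)
  · intro v
    simp only [Pi.zero_apply]
    positivity

theorem Fk_hasDerivAt (n k : ℕ) {p : ℝ} (hp : 0 < p) :
    HasDerivAt (Fk n k) (((k : ℝ) * Fk n k p - Fk n (k + 1) p) / p) p := by
  set F : ℝ → (Fin n → ℝ) → ℝ := fun x v => Real.exp (-∑ i, Real.exp (v i)) *
    ((x * Real.exp (-(∑ i, v i) / 2)) ^ k * Real.exp (-(x * Real.exp (-(∑ i, v i) / 2)))) with hF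
  set F' : ℝ → (Fin n → ℝ) → ℝ := fun x v => Real.exp (-∑ i, Real.exp (v i)) *
    ((k * ((x * Real.exp (-(∑ i, v i) / 2)) ^ k * Real.exp (-(x * Real.exp (-(∑ i, v i) / 2)))) -
      (x * Real.exp (-(∑ i, v i) / 2)) ^ (k + 1) *
        Real.exp (-(x * Real.exp (-(∑ i, v i) / 2)))) / x) with hF'
  set bd : (Fin n → ℝ) → ℝ := fun v => (2 / p) * (k * 3 ^ k * (Real.exp (-∑ i, Real.exp (v i)) *
    ((p / 2 * Real.exp (-(∑ i, v i) / 2)) ^ k * Real.exp (-(p / 2 * Real.exp (-(∑ i, v i) / 2))))) +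
    3 ^ (k + 1) * (Real.exp (-∑ i, Real.exp (v i)) *
    ((p / 2 * Real.exp (-(∑ i, v i) / 2)) ^ (k + 1) *
      Real.exp (-(p / 2 * Real.exp (-(∑ i, v i) / 2)))))) with hbd
  have hp2 : 0 < p / 2 := by positivity
  have hball : ∀ x ∈ Metric.ball p (p / 2), p / 2 < x ∧ x < 3 * (p / 2) := by
    intro x hx
    rw [Metric.mem_ball, Real.dist_eq, abs_lt] at hx
    constructor <;> linarith [hx.1, hx.2]
  have key := hasDerivAt_integral_of_dominated_loc_of_deriv_le (μ := (volume : Measure (Fin n → ℝ)))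
    (F := F) (F' := F') (x₀ := p) (s := Metric.ball p (p / 2)) (bound := bd)
    (Metric.ball_mem_nhds p hp2) ?_ ?_ ?_ ?_ ?_ ?_
  · have h1 := key.2
    have h2 : (∫ v, F' p v) = ((k : ℝ) * Fk n k p - Fk n (k + 1) p) / p := by
      have e1 : Fk n k p = ∫ v : Fin n → ℝ, Real.exp (-∑ i, Real.exp (v i)) *
        ((p * Real.exp (-(∑ i, v i) / 2)) ^ k *
          Real.exp (-(p * Real.exp (-(∑ i, v i) / 2)))) := rfl
      have e2 : Fk n (k + 1) p = ∫ v : Fin n → ℝ, Real.exp (-∑ i, Real.exp (v i)) *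
        ((p * Real.exp (-(∑ i, v i) / 2)) ^ (k + 1) *
          Real.exp (-(p * Real.exp (-(∑ i, v i) / 2)))) := rfl
      rw [e1, e2, ← integral_const_mul, ← integral_sub, ← integral_div]
      · congr 1
        funext v
        simp only [hF']
        ring
      · exact (Jn_integrable (dec_pow k) n hp).const_mul _
      · exact Jn_integrable (dec_pow (k + 1)) n hp
    rw [h2] at h1
    exact h1
  · refine Filter.Eventually.of_forall fun x => ?_
    apply Continuous.aestronglyMeasurable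
    simp only [hF]
    fun_prop
  · exact Jn_integrable (dec_pow k) n hp
  · apply Continuous.aestronglyMeasurable
    simp only [hF']
    fun_prop
  · refine Filter.Eventually.of_forall fun v x hx => ?_
    obtain ⟨hx1, hx2⟩ := hball x hx
    have hx0 : 0 < x := by linarith
    set s : ℝ := Real.exp (-(∑ i, v i) / 2) with hs
    have hs0 : 0 < s := Real.exp_pos _
    have hpw : ∀ j : ℕ, (x * s) ^ j * Real.exp (-(x * s)) ≤
        3 ^ j * ((p / 2 * s) ^ j * Real.exp (-(p / 2 * s))) := by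
      intro j
      have h3 : (x * s) ^ j ≤ (3 * (p / 2 * s)) ^ j := by
        apply pow_le_pow_left₀ (by positivity)
        nlinarith
      have h4 : Real.exp (-(x * s)) ≤ Real.exp (-(p / 2 * s)) := by
        apply Real.exp_le_exp.2
        nlinarith
      calc (x * s) ^ j * Real.exp (-(x * s)) ≤ (3 * (p / 2 * s)) ^ j * Real.exp (-(p / 2 * s)) :=
            mul_le_mul h3 h4 (Real.exp_pos _).le (by positivity)
        _ = _ := by rw [mul_pow]; ring
    simp only [hF', hbd]
    rw [Real.norm_eq_abs, abs_mul, abs_of_pos (Real.exp_pos _), abs_div, abs_of_pos hx0]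
    have h5 : |(k : ℝ) * ((x * s) ^ k * Real.exp (-(x * s))) -
        (x * s) ^ (k + 1) * Real.exp (-(x * s))| ≤
        k * (3 ^ k * ((p / 2 * s) ^ k * Real.exp (-(p / 2 * s)))) +
        3 ^ (k + 1) * ((p / 2 * s) ^ (k + 1) * Real.exp (-(p / 2 * s))) := by
      refine (abs_sub _ _).trans ?_
      rw [abs_of_nonneg (by positivity), abs_of_nonneg (by positivity)]
      exact add_le_add (mul_le_mul_of_nonneg_left (hpw k) (Nat.cast_nonneg k)) (hpw (k + 1))
    have h6 : 1 / x ≤ 2 / p := by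
      rw [div_le_div_iff₀ hx0 hp]
      linarith
    calc Real.exp (-∑ i, Real.exp (v i)) * (|(k : ℝ) * ((x * s) ^ k * Real.exp (-(x * s))) -
        (x * s) ^ (k + 1) * Real.exp (-(x * s))| / x)
        ≤ Real.exp (-∑ i, Real.exp (v i)) * ((k * (3 ^ k * ((p / 2 * s) ^ k *
          Real.exp (-(p / 2 * s)))) + 3 ^ (k + 1) * ((p / 2 * s) ^ (k + 1) *
          Real.exp (-(p / 2 * s)))) * (2 / p)) := by
          apply mul_le_mul_of_nonneg_left _ (Real.exp_pos _).le
          rw [div_eq_mul_one_div]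
          exact mul_le_mul h5 h6 (by positivity) (by positivity)
      _ = _ := by ring
  · simp only [hbd]
    exact (((Jn_integrable (dec_pow k) n hp2).const_mul _).add
      ((Jn_integrable (dec_pow (k + 1)) n hp2).const_mul _)).const_mul _
  · refine Filter.Eventually.of_forall fun v x hx => ?_
    obtain ⟨hx1, hx2⟩ := hball x hx
    have hx0 : 0 < x := by linarith
    set s : ℝ := Real.exp (-(∑ i, v i) / 2) with hs
    simp only [hF, hF']
    have h7 : HasDerivAt (fun x : ℝ => x * s) s x := by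
      simpa using (hasDerivAt_id x).mul_const s
    have h8 : HasDerivAt (fun x : ℝ => (x * s) ^ k) (k * (x * s) ^ (k - 1) * s) x := h7.pow k
    have h9 : HasDerivAt (fun x : ℝ => Real.exp (-(x * s))) (Real.exp (-(x * s)) * -s) x :=
      h7.neg.exp
    have h10 := ((h8.mul h9).const_mul (Real.exp (-∑ i, Real.exp (v i))))
    refine h10.congr_deriv ?_
    congr 1
    rw [eq_div_iff hx0.ne']
    rcases Nat.eq_zero_or_pos k with rfl | hk
    · simp
      ring
    · obtain ⟨m, rfl⟩ : ∃ m, k = m + 1 := ⟨k - 1, by omega⟩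
      simp only [Nat.add_sub_cancel]
      push_cast
      ring

theorem fam (n : ℕ) : Pool.Agent.H25.SD.Fam (Fk n) :=
  ⟨fun k _ hp => Fk_pos n k hp, fun k _ hp => Fk_hasDerivAt n k hp⟩

end H46.SB
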