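import Pool.Agent.H46.SB.CondOf
import Pool.Agent.H46.SB.Cert5

/-!
# The certificate in dimension 5: the value of the bound
-/

namespace H46.SB

open H49.SG

theorem hat5 : (1849 / 1000 : ℚ) < hat 5 h5 0 0 := by decide +kernel

theorem h5_00 : h5 0 0 = 1 := by decide +kernel

theorem sqrt_pi_lower : (1772453 / 1000000 : ℝ) < √Real.pi := by
  apply Real.lt_sqrt_of_sq_lt
  have := Real.pi_gt_d6
  norm_num
  linarith

theorem bound5 : (123 : ℝ) * √((a5 : ℝ) ^ 2 * (b5 : ℝ) ^ 2) * (h5 0 0 : ℝ) <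
    (hat 5 h5 0 0 : ℝ) * (√Real.pi) ^ (3 + 2) := by
  have h1 : √((a5 : ℝ) ^ 2 * (b5 : ℝ) ^ 2) = 21 / 80 := by
    rw [← mul_pow, Real.sqrt_sq] <;> unfold a5 b5 <;> norm_num
  have h2 : (1849 / 1000 : ℝ) < (hat 5 h5 0 0 : ℝ) := by
    have := (Rat.cast_lt (K := ℝ)).2 hat5
    push_cast at this
    exact this
  rw [h1, h5_00]
  have h3 : (1772453 / 1000000 : ℝ) ^ 5 < (√Real.pi) ^ 5 :=
    pow_lt_pow_left₀ sqrt_pi_lower (by norm_num) (by norm_num)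
  have h4 : (0 : ℝ) < (1772453 / 1000000 : ℝ) ^ 5 := by positivity
  norm_num at h3 ⊢
  nlinarith

end H46.SB
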