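import Pool.Agent.H46.SB.CondOf
import Pool.Agent.H46.SB.Bound5
import Pool.Agent.H46.SB.Cert4

/-!
# The certificate in dimension 4: the value of the bound
-/

namespace H46.SB

open H49.SG

theorem hat4 : (1464613 / 1000000 : ℚ) < hat 7 h4 0 0 := by decide +kernel

theorem h4_00 : h4 0 0 = 1 := by decide +kernel

theorem bound4 : (63 / 2 : ℝ) * √((a4 : ℝ) ^ 2 * (b4 : ℝ) ^ 2) * (h4 0 0 : ℝ) <
    (hat 7 h4 0 0 : ℝ) * (√Real.pi) ^ (2 + 2) := by
  have h1 : √((a4 : ℝ) ^ 2 * (b4 : ℝ) ^ 2) = 286 / 625 := by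
    rw [← mul_pow, Real.sqrt_sq] <;> unfold a4 b4 <;> norm_num
  have h2 : (1464613 / 1000000 : ℝ) < (hat 7 h4 0 0 : ℝ) := by
    have := (Rat.cast_lt (K := ℝ)).2 hat4
    push_cast at this
    exact this
  rw [h1, h4_00]
  have h3 : (1772453 / 1000000 : ℝ) ^ 4 < (√Real.pi) ^ 4 :=
    pow_lt_pow_left₀ sqrt_pi_lower (by norm_num) (by norm_num)
  have h4 : (0 : ℝ) < (1772453 / 1000000 : ℝ) ^ 4 := by positivity
  norm_num at h3 ⊢
  nlinarith

end H46.SB
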