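import Pool.Agent.H46.SB.CondOf
import Pool.Agent.H46.SB.Bound5
import Pool.Agent.H46.SB.Cert6

/-!
# The certificate in dimension 6: the value of the bound
-/

namespace H46.SB

open H49.SG

theorem hat6 : (1761043 / 1000000 : ℚ) < hat 7 h6 0 0 := by decide +kernel

theorem h6_00 : h6 0 0 = 1 := by decide +kernel

theorem bound6 : (563 : ℝ) * √((a6 : ℝ) ^ 2 * (b6 : ℝ) ^ 2) * (h6 0 0 : ℝ) <
    (hat 7 h6 0 0 : ℝ) * (√Real.pi) ^ (4 + 2) := by
  have h1 : √((a6 : ℝ) ^ 2 * (b6 : ℝ) ^ 2) = 121 / 1250 := by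
    rw [← mul_pow, Real.sqrt_sq] <;> unfold a6 b6 <;> norm_num
  have h2 : (1761043 / 1000000 : ℝ) < (hat 7 h6 0 0 : ℝ) := by
    have := (Rat.cast_lt (K := ℝ)).2 hat6
    push_cast at this
    exact this
  rw [h1, h6_00]
  have h3 : (1772453 / 1000000 : ℝ) ^ 6 < (√Real.pi) ^ 6 :=
    pow_lt_pow_left₀ sqrt_pi_lower (by norm_num) (by norm_num)
  have h4 : (0 : ℝ) < (1772453 / 1000000 : ℝ) ^ 6 := by positivity
  norm_num at h3 ⊢
  nlinarith

end H46.SB
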