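import Pool.Agent.H46.SB.Sgn4
import Pool.Agent.H46.SB.Bound4
import Pool.Agent.H25.SD.D4P
import Pool.Agent.H25.SD.D4D

/-!
# The conditions for the certificate in dimension 4

`h4_zero`, `sgn4` (S), `bound4` are proved in `Sgn4`, `Bound4`; `prim4` (P), `dual4` (D) in
`H25/SD/D4P`, `H25/SD/D4D`.
-/

namespace H46.SB

open MeasureTheory H81.LP H49.SG

/-- (P) -/
theorem prim4 (r : ℝ) (hr : 0 ≤ r) (hr1 : r ≠ 1) : ∑ k ∈ Finset.range (7 + 1),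
    ck h4 k ((a4 : ℝ) ^ 2 * r ^ 2 / ((a4 : ℝ) ^ 2 * r ^ 2 + (b4 : ℝ) ^ 2)) *
      Fk 2 k (((a4 : ℝ) ^ 2 * r ^ 2 + (b4 : ℝ) ^ 2) / |r - 1|) ≤ 0 :=
  Pool.Agent.H25.SD.D4.prim4 r hr hr1

/-- (D) -/
theorem dual4 (ρ p : ℝ) (h0 : 0 ≤ ρ) (h1 : ρ ≤ 1) (hp : 0 < p) :
    0 ≤ ∑ k ∈ Finset.range (7 + 1), ck (hat 7 h4) k ρ * Fk 2 k p :=
  Pool.Agent.H25.SD.D4.dual4 ρ p h0 h1 hp

theorem cond4 : CondB 2 7 h4 ((a4 : ℝ) ^ 2) ((b4 : ℝ) ^ 2) :=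
  condB_of h4_zero (by unfold a4; norm_num) (by unfold b4; norm_num)
    (fun ρ h0 h1 x y hx hxy hle => sgn4 ρ h0 h1 x y hx hxy hle) (fun r hr hr1 => prim4 r hr hr1)
    (fun ρ p h0 h1 hp => dual4 ρ p h0 h1 hp)

end H46.SB
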