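import Pool.Agent.H46.SB.Sgn5
import Pool.Agent.H46.SB.Bound5
import Pool.Agent.H25.SD.D5P
import Pool.Agent.H25.SD.D5D

/-!
# The conditions for the certificate in dimension 5

`h5_zero`, `sgn5` (S), `bound5` are proved in `Sgn5`, `Bound5`; `prim5` (P), `dual5` (D) in
`H25/SD/D5P`, `H25/SD/D5D`.
-/

namespace H46.SB

open MeasureTheory H81.LP H49.SG

/-- (P) -/
theorem prim5 (r : ℝ) (hr : 0 ≤ r) (hr1 : r ≠ 1) : ∑ k ∈ Finset.range (5 + 1),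
    ck h5 k ((a5 : ℝ) ^ 2 * r ^ 2 / ((a5 : ℝ) ^ 2 * r ^ 2 + (b5 : ℝ) ^ 2)) *
      Fk 3 k (((a5 : ℝ) ^ 2 * r ^ 2 + (b5 : ℝ) ^ 2) / |r - 1|) ≤ 0 :=
  Pool.Agent.H25.SD.D5.prim5 r hr hr1

/-- (D) -/
theorem dual5 (ρ p : ℝ) (h0 : 0 ≤ ρ) (h1 : ρ ≤ 1) (hp : 0 < p) :
    0 ≤ ∑ k ∈ Finset.range (5 + 1), ck (hat 5 h5) k ρ * Fk 3 k p :=
  Pool.Agent.H25.SD.D5.dual5 ρ p h0 h1 hp

theorem cond5 : CondB 3 5 h5 ((a5 : ℝ) ^ 2) ((b5 : ℝ) ^ 2) :=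
  condB_of h5_zero (by unfold a5; norm_num) (by unfold b5; norm_num)
    (fun ρ h0 h1 x y hx hxy hle => sgn5 ρ h0 h1 x y hx hxy hle) (fun r hr hr1 => prim5 r hr hr1)
    (fun ρ p h0 h1 hp => dual5 ρ p h0 h1 hp)

end H46.SB
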